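import Mathlib

/-!
# MP_ce8dea_co: from the line to every dimension

If a simplicial complex is partition induced on ONE nonempty finite set of points of the line
(in particular if it is 1-Tverberg), then it is `d`-Tverberg for every `d ≥ 1`.
So no pair `i < j` with `i = 1` answers Q1.
-/

namespace Pool.Agent.Results.MP_ce8dea_co.FromTheLine

open Finset

/-- `ℝ^d` with its Euclidean structure. -/
abbrev Pt (d : ℕ) : Type := EuclideanSpace ℝ (Fin d)

/-- General position: no `d + 1` points of `S` lie on a common affine hyperplane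
`{x | f x = c}`, `f` a nonzero linear functional. -/
def GeneralPosition {d : ℕ} (S : Finset (Pt d)) : Prop :=
  ∀ (f : Pt d →ₗ[ℝ] ℝ) (c : ℝ), f ≠ 0 → (S.filter (fun x => f x = c)).card ≤ d

/-- `K` is partition induced on `S`: the points of `S` can be partitioned into nonempty parts
`part v`, one for each vertex `v` of `K`, such that a nonempty set `F` of vertices is a face of
`K` exactly when the convex hulls of the parts `part v`, `v ∈ F`, have a common point. -/
def PartitionInduced {V : Type} [Fintype V] [DecidableEq V] (K : AbstractSimplicialComplex V)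
    {d : ℕ} (S : Finset (Pt d)) : Prop :=
  ∃ part : V → Finset (Pt d),
    (∀ v, (part v).Nonempty) ∧
    (∀ v w, v ≠ w → Disjoint (part v) (part w)) ∧
    (Finset.univ.biUnion part = S) ∧
    ∀ F : Finset V, F.Nonempty →
      (F ∈ K ↔ (⋂ v ∈ F, convexHull ℝ (part v : Set (Pt d))).Nonempty)

/-- `K` is `d`-Tverberg. -/
def Tverberg {V : Type} [Fintype V] [DecidableEq V] (d : ℕ)
    (K : AbstractSimplicialComplex V) : Prop :=
  ∃ N : ℕ, ∀ S : Finset (Pt d), GeneralPosition S → N < S.card → PartitionInduced K S

section Slabs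

variable {E : Type} [DecidableEq E]

/-- Splitting a finite set into `n` consecutive groups of at least `M` elements each. -/
lemma slabs (T : Finset E) (f : E → ℝ) (hf : Set.InjOn f T) (n M : ℕ) (hn : 1 ≤ n)
    (hM : 1 ≤ M) (hT : n * M ≤ T.card) :
    ∃ g : E → ℕ, (∀ x ∈ T, g x < n) ∧
      (∀ x ∈ T, ∀ y ∈ T, g x < g y → f x < f y) ∧
      (∀ j < n, M ≤ (T.filter (fun x => g x = j)).card) := by
  classical
  set rank : E → ℕ := fun x => (T.filter (fun y => f y < f x)).card with hrank
  have hmono : ∀ x ∈ T, ∀ y ∈ T, f x < f y → rank x < rank y := by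
    intro x hx y hy hxy
    apply Finset.card_lt_card
    refine Finset.ssubset_iff_subset_ne.mpr ⟨?_, ?_⟩
    · intro z hz
      simp only [Finset.mem_filter] at hz ⊢
      exact ⟨hz.1, hz.2.trans hxy⟩
    · intro h
      have hx' : x ∈ T.filter (fun z => f z < f y) := by simp [hx, hxy]
      rw [← h] at hx'
      simp at hx'
  have hle : ∀ x ∈ T, ∀ y ∈ T, f y ≤ f x → rank y ≤ rank x := by
    intro x hx y hy hxy
    apply Finset.card_le_card
    intro z hz
    simp only [Finset.mem_filter] at hz ⊢
    exact ⟨hz.1, hz.2.trans_le hxy⟩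
  have hinj : Set.InjOn rank T := by
    intro x hx y hy hxy
    by_contra hne
    have : f x ≠ f y := fun h => hne (hf hx hy h)
    rcases lt_or_gt_of_ne this with h | h
    · exact absurd hxy (hmono x hx y hy h).ne
    · exact absurd hxy (hmono y hy x hx h).ne'
  have hlt : ∀ x ∈ T, rank x < T.card := by
    intro x hx
    apply Finset.card_lt_card
    refine Finset.ssubset_iff_subset_ne.mpr ⟨Finset.filter_subset _ _, ?_⟩
    intro h
    have hx' := hx
    rw [← h] at hx'
    simp at hx'
  have himg : T.image rank = Finset.range T.card := by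
    apply Finset.eq_of_subset_of_card_le
    · intro r hr
      rw [Finset.mem_image] at hr
      obtain ⟨x, hx, rfl⟩ := hr
      exact Finset.mem_range.mpr (hlt x hx)
    · rw [Finset.card_range, Finset.card_image_of_injOn hinj]
  refine ⟨fun x => min (rank x / M) (n - 1), ?_, ?_, ?_⟩
  · intro x _
    exact lt_of_le_of_lt (min_le_right _ _) (by omega)
  · intro x hx y hy hg
    by_contra hcon
    have hcon := not_lt.mp hcon
    have h1 : rank y ≤ rank x := hle x hx y hy hcon
    have h2 : rank y / M ≤ rank x / M := Nat.div_le_div_right h1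
    have h3 : min (rank y / M) (n - 1) ≤ min (rank x / M) (n - 1) := min_le_min_right _ h2
    exact absurd hg (not_lt.mpr h3)
  · intro j hj
    have hsub : Finset.Ico (j * M) ((j + 1) * M) ⊆
        (T.filter (fun x => min (rank x / M) (n - 1) = j)).image rank := by
      intro r hr
      rw [Finset.mem_Ico] at hr
      have hrT : r < T.card := by
        have : (j + 1) * M ≤ n * M := Nat.mul_le_mul_right M hj
        omega
      have hr' : r ∈ T.image rank := by rw [himg]; exact Finset.mem_range.mpr hrT
      rw [Finset.mem_image] at hr'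
      obtain ⟨x, hx, hxr⟩ := hr'
      rw [Finset.mem_image]
      refine ⟨x, ?_, hxr⟩
      rw [Finset.mem_filter]
      refine ⟨hx, ?_⟩
      have hdiv : rank x / M = j := by
        rw [hxr]
        exact Nat.div_eq_of_lt_le (by linarith [hr.1]) (by linarith [hr.2])
      rw [hdiv]
      omega
    have h1 := Finset.card_le_card hsub
    rw [Nat.card_Ico] at h1
    have h2 : (j + 1) * M - j * M = M := by rw [add_mul, one_mul]; omega
    rw [h2] at h1
    exact h1.trans Finset.card_image_le

end Slabs

section WeakTverberg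

variable {E : Type} [DecidableEq E] [AddCommGroup E] [Module ℝ E] [FiniteDimensional ℝ E]

/-- A very deep point. -/
lemma centerpoint (k : ℕ) (T : Finset E) (hT : (Module.finrank ℝ E + 1) * k < T.card) :
    ∃ p : E, ∀ X ⊆ T, X.card ≤ k → p ∈ convexHull ℝ ((T \ X : Finset E) : Set E) := by
  classical
  have h := Convex.helly_theorem' (𝕜 := ℝ) (E := E)
    (F := fun X : Finset E => convexHull ℝ ((T \ X : Finset E) : Set E))
    (s := T.powerset.filter (fun X => X.card ≤ k))
    (fun X _ => convex_convexHull ℝ _) ?_
  · obtain ⟨p, hp⟩ := h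
    refine ⟨p, fun X hX hXk => ?_⟩
    have := Set.mem_iInter₂.mp hp X (by simp [hX, hXk])
    exact this
  · intro I hI hIcard
    have hcard : (I.biUnion id).card ≤ (Module.finrank ℝ E + 1) * k := by
      calc (I.biUnion id).card ≤ ∑ X ∈ I, (id X).card := Finset.card_biUnion_le
        _ ≤ ∑ _X ∈ I, k := by
            apply Finset.sum_le_sum
            intro X hX
            have := hI hX
            simp only [Finset.mem_filter] at this
            exact this.2
        _ = I.card * k := by simp
        _ ≤ (Module.finrank ℝ E + 1) * k := Nat.mul_le_mul_right k hIcard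
    obtain ⟨x, hx, hx'⟩ : ∃ x ∈ T, x ∉ I.biUnion id := by
      by_contra hcon
      push Not at hcon
      have : T ⊆ I.biUnion id := hcon
      have := Finset.card_le_card this
      omega
    refine ⟨x, Set.mem_iInter₂.mpr fun X hX => subset_convexHull ℝ _ ?_⟩
    rw [Finset.mem_coe, Finset.mem_sdiff]
    refine ⟨hx, fun hxX => hx' ?_⟩
    rw [Finset.mem_biUnion]
    exact ⟨X, hX, hxX⟩

omit [DecidableEq E] in
/-- Carathéodory with a cardinality bound. -/
lemma small_subset (T : Finset E) (p : E) (hp : p ∈ convexHull ℝ (T : Set E)) :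
    ∃ A ⊆ T, A.card ≤ Module.finrank ℝ E + 1 ∧ p ∈ convexHull ℝ (A : Set E) := by
  classical
  rw [convexHull_eq_union] at hp
  simp only [Set.mem_iUnion, exists_prop] at hp
  obtain ⟨A, hA, hind, hpA⟩ := hp
  refine ⟨A, by exact_mod_cast hA, ?_, hpA⟩
  have := hind.card_le_finrank_succ
  have h2 := Submodule.finrank_le (vectorSpan ℝ (Set.range ((↑) : A → E)))
  simp only [Fintype.card_coe] at this
  omega

/-- Weak form of Tverberg's theorem, with prescribed labels: a set `T` of more than
`(D+1) * (m * (D+1))` points can be coloured by the labels in `F` (`F` nonempty, at most `m`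
labels) such that the convex hulls of the colour classes have a common point. -/
lemma weak_tverberg {V : Type} [DecidableEq V] (m : ℕ) (T : Finset E)
    (hT : (Module.finrank ℝ E + 1) * (m * (Module.finrank ℝ E + 1)) < T.card)
    (F : Finset V) (hF : F.Nonempty) (hFm : F.card ≤ m) :
    ∃ col : E → V, (∀ x, col x ∈ F) ∧
      ∃ p : E, ∀ v ∈ F, p ∈ convexHull ℝ ((T.filter (fun x => col x = v) : Finset E) : Set E) := by
  classical
  obtain ⟨p, hp⟩ := centerpoint (m * (Module.finrank ℝ E + 1)) T hT
  have key : ∀ G : Finset V, G.card ≤ m → ∃ A : V → Finset E,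
      (∀ v ∈ G, A v ⊆ T ∧ (A v).card ≤ Module.finrank ℝ E + 1 ∧
        p ∈ convexHull ℝ (A v : Set E)) ∧
      (∀ v ∈ G, ∀ w ∈ G, v ≠ w → Disjoint (A v) (A w)) := by
    intro G
    induction G using Finset.induction_on with
    | empty => intro _; exact ⟨fun _ => ∅, by simp, by simp⟩
    | insert a G ha ih =>
      intro hG
      rw [Finset.card_insert_of_notMem ha] at hG
      obtain ⟨A, hA1, hA2⟩ := ih (by omega)
      have hX : (G.biUnion A) ⊆ T := by
        intro x hx
        rw [Finset.mem_biUnion] at hx
        obtain ⟨v, hv, hxv⟩ := hx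
        exact (hA1 v hv).1 hxv
      have hXc : (G.biUnion A).card ≤ m * (Module.finrank ℝ E + 1) := by
        calc (G.biUnion A).card ≤ ∑ v ∈ G, (A v).card := Finset.card_biUnion_le
          _ ≤ ∑ _v ∈ G, (Module.finrank ℝ E + 1) := Finset.sum_le_sum fun v hv => (hA1 v hv).2.1
          _ = G.card * (Module.finrank ℝ E + 1) := by simp
          _ ≤ m * (Module.finrank ℝ E + 1) := Nat.mul_le_mul_right _ (by omega)
      obtain ⟨B, hB, hBc, hpB⟩ := small_subset _ p (hp _ hX hXc)
      refine ⟨Function.update A a B, ?_, ?_⟩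
      · intro v hv
        rcases Finset.mem_insert.mp hv with rfl | hv
        · rw [Function.update_self]
          exact ⟨hB.trans Finset.sdiff_subset, hBc, hpB⟩
        · have : v ≠ a := fun h => ha (h ▸ hv)
          rw [Function.update_of_ne this]
          exact hA1 v hv
      · have hdis : ∀ w ∈ G, Disjoint B (A w) := by
          intro w hw
          rw [Finset.disjoint_left]
          intro x hx hxw
          have := hB hx
          rw [Finset.mem_sdiff] at this
          exact this.2 (Finset.mem_biUnion.mpr ⟨w, hw, hxw⟩)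
        intro v hv w hw hvw
        rcases Finset.mem_insert.mp hv with hv' | hv' <;>
          rcases Finset.mem_insert.mp hw with hw' | hw'
        · exact absurd (hv'.trans hw'.symm) hvw
        · rw [hv', Function.update_self, Function.update_of_ne (ne_of_mem_of_not_mem hw' ha)]
          exact hdis w hw'
        · rw [hw', Function.update_self, Function.update_of_ne (ne_of_mem_of_not_mem hv' ha)]
          exact (hdis v hv').symm
        · rw [Function.update_of_ne (ne_of_mem_of_not_mem hv' ha),
            Function.update_of_ne (ne_of_mem_of_not_mem hw' ha)]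
          exact hA2 v hv' w hw' hvw
  obtain ⟨A, hA1, hA2⟩ := key F hFm
  obtain ⟨v₀, hv₀⟩ := hF
  refine ⟨fun x => if h : ∃ v ∈ F, x ∈ A v then h.choose else v₀, ?_, p, ?_⟩
  · intro x
    by_cases h : ∃ v ∈ F, x ∈ A v
    · simp only [h, dite_true]
      exact h.choose_spec.1
    · simp only [h, dite_false]
      exact hv₀
  · intro v hv
    refine convexHull_mono ?_ (hA1 v hv).2.2
    intro x hx
    rw [Finset.mem_coe] at hx ⊢
    rw [Finset.mem_filter]
    refine ⟨(hA1 v hv).1 hx, ?_⟩
    have h : ∃ v ∈ F, x ∈ A v := ⟨v, hv, hx⟩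
    simp only [h, dite_true]
    by_contra hne
    have := hA2 _ h.choose_spec.1 v hv hne
    exact (Finset.disjoint_left.mp this) h.choose_spec.2 hx

end WeakTverberg

/-- The only coordinate of a point of the line. -/
abbrev co (x : Pt 1) : ℝ := x 0

lemma co_inj : Function.Injective co := by
  intro x y h
  ext i
  fin_cases i
  exact h

/-- Convex hulls on the line. -/
lemma hull_line (T : Finset (Pt 1)) (x : Pt 1) :
    x ∈ convexHull ℝ (T : Set (Pt 1)) ↔ (∃ a ∈ T, co a ≤ co x) ∧ (∃ b ∈ T, co x ≤ co b) := by
  constructor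
  · intro hx
    constructor
    · by_contra hcon
      push Not at hcon
      have hsub : (T : Set (Pt 1)) ⊆ {y : Pt 1 | co x < co y} := fun a ha => hcon a ha
      have hconv : Convex ℝ {y : Pt 1 | co x < co y} := by
        have : IsLinearMap ℝ co := ⟨fun a b => rfl, fun c a => rfl⟩
        exact convex_halfSpace_gt this _
      exact (lt_irrefl (co x)) (convexHull_min hsub hconv hx)
    · by_contra hcon
      push Not at hcon
      have hsub : (T : Set (Pt 1)) ⊆ {y : Pt 1 | co y < co x} := fun a ha => hcon a ha
      have hconv : Convex ℝ {y : Pt 1 | co y < co x} := by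
        have : IsLinearMap ℝ co := ⟨fun a b => rfl, fun c a => rfl⟩
        exact convex_halfSpace_lt this _
      exact (lt_irrefl (co x)) (convexHull_min hsub hconv hx)
  · rintro ⟨⟨a, ha, hax⟩, ⟨b, hb, hxb⟩⟩
    have hseg : x ∈ segment ℝ a b := by
      rcases eq_or_lt_of_le (hax.trans hxb) with hab | hab
      · have h1 : co a = co x := le_antisymm hax (hab ▸ hxb)
        rw [← co_inj h1]
        exact left_mem_segment ℝ a b
      · refine ⟨(co b - co x) / (co b - co a), (co x - co a) / (co b - co a), ?_, ?_, ?_, ?_⟩
        · exact div_nonneg (by linarith) (by linarith)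
        · exact div_nonneg (by linarith) (by linarith)
        · rw [← add_div, div_eq_one_iff_eq (by linarith)]; ring
        · apply co_inj
          have hne : co b - co a ≠ 0 := by linarith
          change (co b - co x) / (co b - co a) * co a + (co x - co a) / (co b - co a) * co b = co x
          field_simp
          ring
    exact segment_subset_convexHull (by exact_mod_cast ha) (by exact_mod_cast hb) hseg

/-- The main construction. -/
theorem main {V : Type} [Fintype V] [DecidableEq V] (K : AbstractSimplicialComplex V)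
    (S₁ : Finset (Pt 1)) (hS₁ : S₁.Nonempty) (hK : PartitionInduced K S₁) (d : ℕ) :
    ∃ N : ℕ, ∀ S : Finset (Pt d), N < S.card → PartitionInduced K S := by
  classical
  obtain ⟨part, hne, hdisj, hun, hnerve⟩ := hK
  -- the intervals as sets of points of `S₁`
  set C : Pt 1 → Finset V := fun s =>
    Finset.univ.filter (fun v => (∃ a ∈ part v, co a ≤ co s) ∧ (∃ b ∈ part v, co s ≤ co b))
    with hC
  have hCmem : ∀ s v, v ∈ C s ↔ s ∈ convexHull ℝ (part v : Set (Pt 1)) := by
    intro s v
    rw [hull_line _]
    simp [hC]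
  have hCne : ∀ s ∈ S₁, (C s).Nonempty := by
    intro s hs
    rw [← hun, Finset.mem_biUnion] at hs
    obtain ⟨v, -, hv⟩ := hs
    exact ⟨v, (hCmem s v).mpr (subset_convexHull ℝ _ (by exact_mod_cast hv))⟩
  -- enumerate `S₁` increasingly
  set n := S₁.card with hn
  have hn1 : 1 ≤ n := hS₁.card_pos
  have hcard : (S₁.image co).card = n := Finset.card_image_of_injective _ co_inj
  set e : Fin n ≃o (S₁.image co : Finset ℝ) := (S₁.image co).orderIsoOfFin hcard with he
  -- the point with index `j`
  have hpt : ∀ j : Fin n, ∃ s ∈ S₁, co s = ((e j : (S₁.image co : Finset ℝ)) : ℝ) := by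
    intro j
    have := (e j).2
    rw [Finset.mem_image] at this
    obtain ⟨s, hs, hs'⟩ := this
    exact ⟨s, hs, hs'⟩
  choose pt hptS hptc using hpt
  have hptmono : ∀ i j : Fin n, i ≤ j ↔ co (pt i) ≤ co (pt j) := by
    intro i j
    rw [hptc, hptc, Subtype.coe_le_coe, e.le_iff_le]
  have hptsurj : ∀ s ∈ S₁, ∃ j : Fin n, pt j = s := by
    intro s hs
    obtain ⟨j, hj⟩ := e.surjective ⟨co s, Finset.mem_image_of_mem _ hs⟩
    refine ⟨j, co_inj ?_⟩
    rw [hptc, hj]
  -- number of points per slab
  set D := Module.finrank ℝ (Pt d) with hD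
  set m := Fintype.card V with hm
  set M := (D + 1) * (m * (D + 1)) + 1 with hM
  refine ⟨n * M, fun S hS => ?_⟩
  -- a functional which is injective on `S`
  obtain ⟨f, hf⟩ : ∃ f : Module.Dual ℝ (Pt d), Set.InjOn f S := by
    obtain ⟨f, hf⟩ := Module.exists_dual_forall_apply_ne_zero (K := ℝ)
      (fun q : {q : S × S // q.1 ≠ q.2} => (q.1.1 : Pt d) - (q.1.2 : Pt d))
      (fun q => by
        rw [sub_ne_zero]
        exact fun h => q.2 (Subtype.ext h))
    refine ⟨f, fun x hx y hy hxy => ?_⟩
    by_contra hne
    have := hf ⟨(⟨x, hx⟩, ⟨y, hy⟩), fun h => hne (congrArg Subtype.val h)⟩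
    apply this
    rw [map_sub, hxy, sub_self]
  obtain ⟨g, hg1, hg2, hg3⟩ := slabs S f hf n M hn1 (by omega) hS.le
  -- colourings of the slabs
  have hcol : ∀ j : Fin n, ∃ col : Pt d → V, (∀ x, col x ∈ C (pt j)) ∧
      ∃ p : Pt d, ∀ v ∈ C (pt j), p ∈ convexHull ℝ
        (((S.filter (fun x => g x = j)).filter (fun x => col x = v) : Finset (Pt d)) :
          Set (Pt d)) := by
    intro j
    apply weak_tverberg m
    · have := hg3 j j.2
      rw [← hD]
      omega
    · exact hCne _ (hptS j)
    · exact Finset.card_le_univ _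
  choose col hcol1 p hp using hcol
  have hzero : 0 < n := hn1
  -- the total colouring
  set tot : Pt d → V := fun x => if h : g x < n then col ⟨g x, h⟩ x else col ⟨0, hzero⟩ x with htot
  have htotC : ∀ x ∈ S, ∀ h : g x < n, tot x ∈ C (pt ⟨g x, h⟩) := by
    intro x hx h
    simp only [htot, h, dite_true]
    exact hcol1 _ _
  have hpart : ∀ j : Fin n, ∀ v ∈ C (pt j), p j ∈ convexHull ℝ
      ((S.filter (fun x => tot x = v) : Finset (Pt d)) : Set (Pt d)) := by
    intro j v hv
    refine convexHull_mono ?_ (hp j v hv)
    intro x hx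
    rw [Finset.mem_coe, Finset.mem_filter, Finset.mem_filter] at hx
    obtain ⟨⟨hxS, hxj⟩, hxv⟩ := hx
    rw [Finset.mem_coe, Finset.mem_filter]
    refine ⟨hxS, ?_⟩
    have h : g x < n := hg1 x hxS
    simp only [htot, h, dite_true]
    have : (⟨g x, h⟩ : Fin n) = j := Fin.ext hxj
    rw [this]
    exact hxv
  refine ⟨fun v => S.filter (fun x => tot x = v), ?_, ?_, ?_, ?_⟩
  · intro v
    obtain ⟨s, hs⟩ := hne v
    have hsS : s ∈ S₁ := by rw [← hun]; exact Finset.mem_biUnion.mpr ⟨v, Finset.mem_univ _, hs⟩
    obtain ⟨j, hj⟩ := hptsurj s hsS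
    have hv : v ∈ C (pt j) := by
      rw [hCmem, hj]
      exact subset_convexHull ℝ _ (by exact_mod_cast hs)
    have := hpart j v hv
    rw [← Finset.coe_nonempty, ← convexHull_nonempty_iff (𝕜 := ℝ)]
    exact ⟨_, this⟩
  · intro v w hvw
    rw [Finset.disjoint_left]
    intro x hx hx'
    rw [Finset.mem_filter] at hx hx'
    exact hvw (hx.2.symm.trans hx'.2)
  · ext x
    simp
  · intro F hF
    rw [hnerve F hF]
    constructor
    · rintro ⟨q, hq⟩
      have hq' : ∀ v ∈ F, q ∈ convexHull ℝ (part v : Set (Pt 1)) := fun v hv =>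
        Set.mem_iInter₂.mp hq v hv
      -- the largest left end point
      have hleft : ∀ v : V, ∃ a ∈ part v, ∀ b ∈ part v, co a ≤ co b := fun v =>
        Finset.exists_min_image (part v) co (hne v)
      choose a ha hamin using hleft
      obtain ⟨v₁, hv₁, hmax⟩ := Finset.exists_max_image F (fun v => co (a v)) hF
      have hsS : a v₁ ∈ S₁ := by
        rw [← hun]; exact Finset.mem_biUnion.mpr ⟨v₁, Finset.mem_univ _, ha v₁⟩
      obtain ⟨j, hj⟩ := hptsurj _ hsS
      refine ⟨p j, Set.mem_iInter₂.mpr fun v hv => hpart j v ?_⟩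
      rw [hCmem, hj, hull_line _]
      refine ⟨⟨a v, ha v, hmax v hv⟩, ?_⟩
      obtain ⟨b, hb, hqb⟩ := ((hull_line _ q).mp (hq' v hv)).2
      refine ⟨b, hb, ?_⟩
      obtain ⟨a', ha', ha'q⟩ := ((hull_line _ q).mp (hq' v₁ hv₁)).1
      exact ((hamin v₁ a' ha').trans ha'q).trans hqb
    · rintro ⟨q, hq⟩
      have hq' : ∀ v ∈ F, q ∈ convexHull ℝ
          ((S.filter (fun x => tot x = v) : Finset (Pt d)) : Set (Pt d)) := fun v hv =>
        Set.mem_iInter₂.mp hq v hv
      -- pairwise intersecting intervals
      have hleft : ∀ v : V, ∃ a ∈ part v, ∀ b ∈ part v, co a ≤ co b := fun v =>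
        Finset.exists_min_image (part v) co (hne v)
      have hright : ∀ v : V, ∃ a ∈ part v, ∀ b ∈ part v, co b ≤ co a := fun v =>
        Finset.exists_max_image (part v) co (hne v)
      choose a ha hamin using hleft
      choose b hb hbmax using hright
      have hpair : ∀ v ∈ F, ∀ w ∈ F, co (a v) ≤ co (b w) := by
        intro v hv w hw
        by_contra hcon
        have hcon := not_le.mp hcon
        -- every point of the part of `w` lies in an earlier slab than every point of `v`
        have hsep : ∀ x ∈ S.filter (fun x => tot x = w), ∀ y ∈ S.filter (fun x => tot x = v),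
            f x < f y := by
          intro x hx y hy
          rw [Finset.mem_filter] at hx hy
          have hgx := hg1 x hx.1
          have hgy := hg1 y hy.1
          have h1 := htotC x hx.1 hgx
          have h2 := htotC y hy.1 hgy
          rw [hx.2, hCmem, hull_line _] at h1
          rw [hy.2, hCmem, hull_line _] at h2
          obtain ⟨-, b', hb', hxb'⟩ := h1
          obtain ⟨⟨a', ha', ha'y⟩, -⟩ := h2
          apply hg2 x hx.1 y hy.1
          by_contra hle
          have hle := not_lt.mp hle
          have hfin : (⟨g y, hgy⟩ : Fin n) ≤ ⟨g x, hgx⟩ := hle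
          rw [hptmono] at hfin
          have := hamin v a' ha'
          have := hbmax w b' hb'
          linarith
        obtain ⟨x₀, hx₀, hxmax⟩ : ∃ x₀ ∈ S.filter (fun x => tot x = w),
            ∀ x ∈ S.filter (fun x => tot x = w), f x ≤ f x₀ := by
          apply Finset.exists_max_image
          rw [← Finset.coe_nonempty, ← convexHull_nonempty_iff (𝕜 := ℝ)]
          exact ⟨_, hq' w hw⟩
        have hqw : f q ≤ f x₀ := by
          have hsub : ((S.filter (fun x => tot x = w) : Finset (Pt d)) : Set (Pt d)) ⊆
              {y | f y ≤ f x₀} := fun y hy => hxmax y hy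
          exact convexHull_min hsub (convex_halfSpace_le f.isLinear _) (hq' w hw)
        have hqv : f x₀ < f q := by
          have hsub : ((S.filter (fun x => tot x = v) : Finset (Pt d)) : Set (Pt d)) ⊆
              {y | f x₀ < f y} := fun y hy => hsep x₀ hx₀ y hy
          exact convexHull_min hsub (convex_halfSpace_gt f.isLinear _) (hq' v hv)
        linarith
      obtain ⟨v₁, hv₁, hmax⟩ := Finset.exists_max_image F (fun v => co (a v)) hF
      refine ⟨a v₁, Set.mem_iInter₂.mpr fun v hv => ?_⟩
      rw [hull_line _]
      exact ⟨⟨a v, ha v, hmax v hv⟩, ⟨b v, hb v, hpair v₁ hv₁ v hv⟩⟩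

/-- There are arbitrarily large finite sets of points of the line in general position. -/
lemma exists_line_set (N : ℕ) : ∃ S : Finset (Pt 1), GeneralPosition S ∧ N < S.card := by
  classical
  set emb : ℕ → Pt 1 := fun k => WithLp.toLp 2 (fun _ => (k : ℝ)) with hemb
  have hinj : Function.Injective emb := by
    intro a b h
    have h2 : co (emb a) = co (emb b) := by rw [h]
    have h3 : (a : ℝ) = (b : ℝ) := h2
    exact_mod_cast h3
  refine ⟨(Finset.range (N + 1)).image emb, ?_, ?_⟩
  · intro f c hf
    rw [Finset.card_le_one]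
    intro x hx y hy
    rw [Finset.mem_filter] at hx hy
    by_contra hne
    apply hf
    have hxy : f (x - y) = 0 := by rw [map_sub, hx.2, hy.2, sub_self]
    have hco : co (x - y) ≠ 0 := fun h => hne (sub_eq_zero.mp (co_inj (by simpa using h)))
    ext z
    have hz : z = (co z / co (x - y)) • (x - y) := by
      apply co_inj
      change co z = (co z / co (x - y)) * co (x - y)
      field_simp
    change f z = 0
    rw [hz, map_smul, hxy, smul_zero]
  · rw [Finset.card_image_of_injective _ hinj, Finset.card_range]
    omega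

/-- If `K` is partition induced on one nonempty finite set of points of the line, then in every
`ℝ^d` it is partition induced on every sufficiently large finite set (general position is not
needed); in particular every 1-Tverberg complex is `d`-Tverberg for every `d ≥ 1`. -/
theorem result :
    ∀ (V : Type) [Fintype V] [DecidableEq V] (K : AbstractSimplicialComplex V),
      ((∃ S : Finset (Pt 1), S.Nonempty ∧ PartitionInduced K S) →
        ∀ d : ℕ, ∃ N : ℕ, ∀ S : Finset (Pt d), N < S.card → PartitionInduced K S) ∧
      (Tverberg 1 K → ∀ d : ℕ, 1 ≤ d → Tverberg d K) := by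
  intro V _ _ K
  have h1 : (∃ S : Finset (Pt 1), S.Nonempty ∧ PartitionInduced K S) →
      ∀ d : ℕ, ∃ N : ℕ, ∀ S : Finset (Pt d), N < S.card → PartitionInduced K S := by
    rintro ⟨S, hS, hK⟩ d
    exact main K S hS hK d
  refine ⟨h1, ?_⟩
  rintro ⟨N, hN⟩ d _
  obtain ⟨S, hS, hc⟩ := exists_line_set N
  obtain ⟨N', hN'⟩ := h1 ⟨S, Finset.card_pos.mp (by omega), hN S hS hc⟩ d
  exact ⟨N', fun S' _ hS' => hN' S' hS'⟩

end Pool.Agent.Results.MP_ce8dea_co.FromTheLine
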